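import Mathlib

set_option autoImplicit false
set_option linter.unusedSectionVars false

open Cardinal Set

namespace Pool.Agent.Results.MP_e76a7e_co.NoSubdivision

universe u

/-- The chromatic number of an arbitrary (possibly infinite) graph: the least cardinal `κ` such
that the vertex set is the union of `κ` independent sets. -/
noncomputable def chi {V : Type u} (G : SimpleGraph V) : Cardinal.{u} :=
  sInf {κ : Cardinal.{u} | ∃ (ι : Type u) (A : ι → Set V), #ι = κ ∧
    (∀ i, ∀ x ∈ A i, ∀ y ∈ A i, ¬ G.Adj x y) ∧ (⋃ i, A i) = Set.univ}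

/-- The inner vertices of a path from `x` to `y`: its vertices other than `x` and `y`. -/
def inner {V : Type u} {G : SimpleGraph V} {x y : V} (p : G.Path x y) : Set V :=
  {v | v ∈ p.1.support ∧ v ≠ x ∧ v ≠ y}

/-- `G` contains a subdivision `U(K_κ)` of the complete graph on `κ` vertices: there is a set `B`
of `κ` branch vertices and, for every pair `x ≠ y` in `B`, a (finite) path `P x y` of `G` from `x`
to `y` (with `P y x` the reverse of `P x y`, so there is one path for each unordered pair), such
that no path has an inner vertex in `B` and paths of different pairs are internally disjoint. -/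
def ContainsSubdivision {V : Type u} (G : SimpleGraph V) (κ : Cardinal.{u}) : Prop :=
  ∃ B : Set V, #B = κ ∧ ∃ P : ∀ x y : B, x ≠ y → G.Path (x : V) (y : V),
    (∀ (x y : B) (h : x ≠ y), P y x h.symm = (P x y h).reverse) ∧
    (∀ (x y : B) (h : x ≠ y), ∀ v ∈ inner (P x y h), v ∉ B) ∧
    (∀ (x y z w : B) (h : x ≠ y) (h' : z ≠ w), s(x, y) ≠ s(z, w) →
      Disjoint (inner (P x y h)) (inner (P z w h')))

section Tree

variable {T : Type u} [PartialOrder T]

/-- comparability graph of a partial order -/
def cmpGraph (T : Type u) [PartialOrder T] : SimpleGraph T where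
  Adj x y := x ≠ y ∧ (x ≤ y ∨ y ≤ x)
  symm := ⟨fun _ _ h => ⟨h.1.symm, h.2.symm⟩⟩
  loopless := ⟨fun _ h => h.1 rfl⟩

/-- a finite walk in the comparability graph of a tree order has a least vertex -/
theorem walk_min (hT : ∀ x y z : T, x ≤ z → y ≤ z → x ≤ y ∨ y ≤ x) {x y : T}
    (p : (cmpGraph T).Walk x y) : ∃ m ∈ p.support, ∀ v ∈ p.support, m ≤ v := by
  induction p with
  | @nil w => exact ⟨w, by simp, by simp⟩
  | @cons x v y h p ih =>
    obtain ⟨m, hm, hmin⟩ := ih
    have hmv : m ≤ v := hmin v p.start_mem_support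
    rcases h.2 with hxv | hvx
    · rcases hT x m v hxv hmv with h1 | h1
      · refine ⟨x, by simp, ?_⟩
        intro w hw
        simp only [SimpleGraph.Walk.support_cons, List.mem_cons] at hw
        rcases hw with rfl | hw
        · exact le_rfl
        · exact h1.trans (hmin w hw)
      · refine ⟨m, by simp [hm], ?_⟩
        intro w hw
        simp only [SimpleGraph.Walk.support_cons, List.mem_cons] at hw
        rcases hw with rfl | hw
        · exact h1
        · exact hmin w hw
    · refine ⟨m, by simp [hm], ?_⟩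
      intro w hw
      simp only [SimpleGraph.Walk.support_cons, List.mem_cons] at hw
      rcases hw with rfl | hw
      · exact hmv.trans hvx
      · exact hmin w hw

/-- The comparability graph of a tree order in which every element has at most `a` predecessors
and in which no chain has `a⁺` elements contains no subdivision of `K_{a⁺}`. -/
theorem no_subdivision (a : Cardinal.{u}) (ha : ℵ₀ ≤ a)
    (hT : ∀ x y z : T, x ≤ z → y ≤ z → x ≤ y ∨ y ≤ x)
    (hpred : ∀ x : T, #(Set.Iio x) ≤ a)
    (hchain : ∀ C : Set T, (∀ x ∈ C, ∀ y ∈ C, x ≤ y ∨ y ≤ x) → #C ≠ Order.succ a) :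
    ¬ ContainsSubdivision (cmpGraph T) (Order.succ a) := by
  rintro ⟨B, hB, P, -, hPB, hdisj⟩
  refine hchain B ?_ hB
  intro x hx y hy
  by_contra hxy
  push Not at hxy
  obtain ⟨hxy1, hxy2⟩ := hxy
  have hne : x ≠ y := by rintro rfl; exact hxy1 le_rfl
  let x' : B := ⟨x, hx⟩
  let y' : B := ⟨y, hy⟩
  -- each further branch vertex `z` yields a common predecessor on the walk `x → z → y`
  have key : ∀ z : B, z ≠ x' → z ≠ y' → ∃ m : T, m < x ∧
      (m = z ∨ (∃ h, m ∈ inner (P x' z h)) ∨ (∃ h, m ∈ inner (P z y' h))) := by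
    intro z hzx hzy
    obtain ⟨m, hm, hmin⟩ := walk_min hT ((P x' z hzx.symm).1.append (P z y' hzy).1)
    have hmx : m ≤ x := hmin x (by simp [x'])
    have hmy : m ≤ y := hmin y (by simp [y'])
    have hmx' : m ≠ x := by rintro rfl; exact hxy1 hmy
    have hmy' : m ≠ y := by rintro rfl; exact hxy2 hmx
    refine ⟨m, lt_of_le_of_ne hmx hmx', ?_⟩
    by_cases hmz : m = z
    · exact Or.inl hmz
    · right
      rw [SimpleGraph.Walk.mem_support_append_iff] at hm
      rcases hm with hm | hm
      · exact Or.inl ⟨hzx.symm, hm, hmx', hmz⟩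
      · exact Or.inr ⟨hzy, hm, hmz, hmy'⟩
  choose m hmx hm using key
  let Z : Set B := {z | z ≠ x' ∧ z ≠ y'}
  have hinj : Function.Injective (fun z : Z => (⟨m z.1 z.2.1 z.2.2, hmx z.1 z.2.1 z.2.2⟩ : Set.Iio x)) := by
    rintro ⟨z, hzx, hzy⟩ ⟨w, hwx, hwy⟩ hzw
    have hzw' : m z hzx hzy = m w hwx hwy := congrArg Subtype.val hzw
    by_contra hne'
    have hzwne : z ≠ w := fun h => hne' (Subtype.ext h)
    have hwz : w ≠ z := hzwne.symm
    have hx'y' : x' ≠ y' := fun h => hne (congrArg Subtype.val h)
    have h1 := hm z hzx hzy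
    have h2 := hm w hwx hwy
    rw [← hzw'] at h2
    have notB : ∀ (p q : B) (h : p ≠ q) (v : B), (v : T) ∉ inner (P p q h) :=
      fun p q h v hv => hPB p q h v hv v.2
    have dj : ∀ (p q r s : B) (h : p ≠ q) (h' : r ≠ s), s(p, q) ≠ s(r, s) → ∀ v,
        v ∈ inner (P p q h) → v ∉ inner (P r s h') :=
      fun p q r s h h' hne v hv hv' => Set.disjoint_left.mp (hdisj p q r s h h' hne) hv hv'
    rcases h1 with h1 | ⟨h, h1⟩ | ⟨h, h1⟩
    · rcases h2 with h2 | ⟨h', h2⟩ | ⟨h', h2⟩
      · exact hzwne (Subtype.ext (h1.symm.trans h2))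
      · exact notB _ _ _ z (h1 ▸ h2)
      · exact notB _ _ _ z (h1 ▸ h2)
    · rcases h2 with h2 | ⟨h', h2⟩ | ⟨h', h2⟩
      · exact notB _ _ _ w (h2 ▸ h1)
      · refine dj _ _ _ _ h h' ?_ _ h1 h2
        simp only [ne_eq, Sym2.eq_iff, not_or, not_and]
        exact ⟨fun _ => hzwne, fun h3 => absurd h3 hwx.symm⟩
      · refine dj _ _ _ _ h h' ?_ _ h1 h2
        simp only [ne_eq, Sym2.eq_iff, not_or, not_and]
        exact ⟨fun h3 => absurd h3 hwx.symm, fun h3 => absurd h3 hx'y'⟩
    · rcases h2 with h2 | ⟨h', h2⟩ | ⟨h', h2⟩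
      · exact notB _ _ _ w (h2 ▸ h1)
      · refine dj _ _ _ _ h h' ?_ _ h1 h2
        simp only [ne_eq, Sym2.eq_iff, not_or, not_and]
        exact ⟨fun h3 => absurd h3 hzx, fun h3 => absurd h3 hzwne⟩
      · refine dj _ _ _ _ h h' ?_ _ h1 h2
        simp only [ne_eq, Sym2.eq_iff, not_or, not_and]
        exact ⟨fun h3 => absurd h3 hzwne, fun h3 => absurd h3 hzy⟩
  have hZ : #Z ≤ a := (Cardinal.mk_le_of_injective hinj).trans (hpred x)
  -- but `B` is the union of `Z` and two points
  have hBle : #B ≤ a := by
    have h1 : (Set.univ : Set B) ⊆ Z ∪ {x', y'} := by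
      intro z _
      by_cases hzx : z = x'
      · right; simp [hzx]
      · by_cases hzy : z = y'
        · right; simp [hzy]
        · left; exact ⟨hzx, hzy⟩
    have h2 : #B ≤ #(Z ∪ {x', y'} : Set B) := by
      rw [← Cardinal.mk_univ]
      exact Cardinal.mk_le_mk_of_subset h1
    refine h2.trans ((Cardinal.mk_union_le _ _).trans ?_)
    have h3 : #({x', y'} : Set B) ≤ a :=
      (le_of_lt (Cardinal.lt_aleph0_iff_set_finite.mpr (Set.toFinite _))).trans ha
    exact Cardinal.add_le_of_le ha hZ h3
  rw [hB] at hBle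
  exact absurd (Order.lt_succ a) (not_lt.mpr hBle)

end Tree

section Node

variable (W A : Type u) [LinearOrder W]

/-- A node: an injection from a proper initial segment `{β | β < dom}` of `W` into `A`. -/
structure Node where
  dom : W
  f : W → Option A
  none_iff : ∀ β, f β = none ↔ dom ≤ β
  inj : ∀ β γ, f β ≠ none → f β = f γ → β = γ

variable {W A}

theorem Node.ext' {p q : Node W A} (h : p.f = q.f) : p = q := by
  have hd : p.dom = q.dom := by
    apply le_antisymm
    · rw [← p.none_iff, h, q.none_iff]
    · rw [← q.none_iff, ← h, p.none_iff]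
  cases p; cases q
  simp only at h hd
  subst h; subst hd; rfl

/-- extension order -/
instance : PartialOrder (Node W A) where
  le p q := ∀ β, β < p.dom → p.f β = q.f β
  le_refl p := fun _ _ => rfl
  le_trans := by
    intro p q r hpq hqr β hβ
    have h1 := hpq β hβ
    have h2 : β < q.dom := by
      by_contra h
      rw [(q.none_iff β).mpr (not_lt.mp h)] at h1
      exact absurd ((p.none_iff β).mp h1) (not_le.mpr hβ)
    exact h1.trans (hqr β h2)
  le_antisymm := by
    intro p q hpq hqp
    apply Node.ext'
    have hd : p.dom ≤ q.dom := by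
      by_contra h
      rw [not_le] at h
      have h1 := hpq q.dom h
      rw [(q.none_iff q.dom).mpr le_rfl] at h1
      exact absurd ((p.none_iff _).mp h1) (not_le.mpr h)
    have hd' : q.dom ≤ p.dom := by
      by_contra h
      rw [not_le] at h
      have h1 := hqp p.dom h
      rw [(p.none_iff p.dom).mpr le_rfl] at h1
      exact absurd ((q.none_iff _).mp h1) (not_le.mpr h)
    funext β
    by_cases hβ : β < p.dom
    · exact hpq β hβ
    · rw [not_lt] at hβ
      rw [(p.none_iff β).mpr hβ, (q.none_iff β).mpr (hd'.trans hβ)]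

theorem Node.le_def {p q : Node W A} : p ≤ q ↔ ∀ β, β < p.dom → p.f β = q.f β := Iff.rfl

theorem Node.dom_le {p q : Node W A} (h : p ≤ q) : p.dom ≤ q.dom := by
  by_contra h'
  rw [not_le] at h'
  have h1 := h q.dom h'
  rw [(q.none_iff q.dom).mpr le_rfl] at h1
  exact absurd ((p.none_iff _).mp h1) (not_le.mpr h')

theorem Node.eq_of_dom {p q : Node W A} (h : p ≤ q) (hd : p.dom = q.dom) : p = q := by
  apply Node.ext'
  funext β
  by_cases hβ : β < p.dom
  · exact h β hβ
  · rw [not_lt] at hβ
    rw [(p.none_iff β).mpr hβ, (q.none_iff β).mpr (hd ▸ hβ)]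

theorem Node.tree (p q r : Node W A) (h1 : p ≤ r) (h2 : q ≤ r) : p ≤ q ∨ q ≤ p := by
  rcases le_total p.dom q.dom with h | h
  · left
    intro β hβ
    rw [h1 β hβ, h2 β (hβ.trans_le h)]
  · right
    intro β hβ
    rw [h2 β hβ, h1 β (hβ.trans_le h)]

theorem Node.pred_le (a : Cardinal.{u}) (hW : ∀ β : W, #(Set.Iio β) ≤ a) (p : Node W A) :
    #(Set.Iio p) ≤ a := by
  refine (Cardinal.mk_le_of_injective (f := fun q : Set.Iio p =>
    (⟨q.1.dom, lt_of_le_of_ne (Node.dom_le q.2.le) (fun h => q.2.ne (Node.eq_of_dom q.2.le h))⟩ :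
      Set.Iio p.dom)) ?_).trans (hW p.dom)
  rintro ⟨q, hq⟩ ⟨r, hr⟩ h
  have hd : q.dom = r.dom := congrArg Subtype.val h
  apply Subtype.ext
  rcases Node.tree q r p (le_of_lt hq) (le_of_lt hr) with h1 | h1
  · exact Node.eq_of_dom h1 hd
  · exact (Node.eq_of_dom h1 hd.symm).symm

/-- chains of nodes of size `|W|` are impossible if `|A| < |W|` and proper initial segments of `W`
are smaller than `W` -/
theorem Node.no_chain (κ : Cardinal.{u}) (hW : ∀ β : W, #(Set.Iic β) < κ) (hWκ : #W = κ)
    (hA : #A < κ) (C : Set (Node W A)) (hC : ∀ x ∈ C, ∀ y ∈ C, x ≤ y ∨ y ≤ x) : #C ≠ κ := by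
  intro hCκ
  -- for every `β` some node of the chain has domain above `β`
  have h1 : ∀ β : W, ∃ p ∈ C, β < p.dom := by
    intro β
    by_contra h
    push Not at h
    have : #C ≤ #(Set.Iic β) := by
      refine Cardinal.mk_le_of_injective (f := fun p : C => (⟨p.1.dom, h p.1 p.2⟩ : Set.Iic β)) ?_
      rintro ⟨p, hp⟩ ⟨q, hq⟩ hpq
      have hd : p.dom = q.dom := congrArg Subtype.val hpq
      apply Subtype.ext
      rcases hC p hp q hq with h2 | h2
      · exact Node.eq_of_dom h2 hd
      · exact (Node.eq_of_dom h2 hd.symm).symm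
    rw [hCκ] at this
    exact absurd (hW β) (not_lt.mpr this)
  choose p hpC hp using h1
  have hsome : ∀ β : W, ∃ x : A, (p β).f β = some x := by
    intro β
    have : (p β).f β ≠ none := by
      intro h
      exact absurd (((p β).none_iff β).mp h) (not_le.mpr (hp β))
    exact Option.ne_none_iff_exists'.mp this
  choose g hg using hsome
  have hinj : Function.Injective g := by
    have main : ∀ β γ, p β ≤ p γ → g β = g γ → β = γ := by
      intro β γ hle hgg
      have e1 : (p γ).f β = some (g β) := by rw [← hle β (hp β), hg]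
      have e2 : (p γ).f γ = some (g γ) := hg γ
      refine (p γ).inj β γ (by rw [e1]; simp) (by rw [e1, e2, hgg])
    intro β γ hgg
    rcases hC _ (hpC β) _ (hpC γ) with h | h
    · exact main β γ h hgg
    · exact (main γ β h hgg.symm).symm
  have := Cardinal.mk_le_of_injective hinj
  rw [hWκ] at this
  exact absurd hA (not_lt.mpr this)

variable [WellFoundedLT W]

open Classical in
/-- the recursively defined sequence of colours -/
noncomputable def seq (c : Node W A → A) (d : A) : W → A :=
  WellFounded.fix (wellFounded_lt (α := W)) (fun α rec =>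
    if h : ∃ p : Node W A, p.dom = α ∧ ∀ (β : W) (hβ : β < α), p.f β = some (rec β hβ)
    then c h.choose else d)

open Classical in
theorem seq_eq (c : Node W A → A) (d : A) (α : W) (p : Node W A) (hp : p.dom = α)
    (hpf : ∀ β : W, β < α → p.f β = some (seq c d β)) : seq c d α = c p := by
  have h : ∃ p : Node W A, p.dom = α ∧ ∀ (β : W) (_ : β < α), p.f β = some (seq c d β) :=
    ⟨p, hp, hpf⟩
  have h0 : seq c d α = if h : ∃ p : Node W A, p.dom = α ∧ ∀ (β : W) (_ : β < α),
      p.f β = some (seq c d β) then c h.choose else d := by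
    unfold seq
    rw [WellFounded.fix_eq]
  rw [h0, dif_pos h]
  congr 1
  have hc := h.choose_spec
  have hle : h.choose ≤ p := by
    intro β hβ
    rw [hc.1] at hβ
    rw [hc.2 β hβ, hpf β hβ]
  exact Node.eq_of_dom hle (hc.1.trans hp.symm)

/-- Every map from nodes to `A` takes the same value at two comparable nodes. -/
theorem Node.no_coloring (hA : #A < #W) (c : Node W A → A) :
    ∃ p q : Node W A, p ≠ q ∧ p ≤ q ∧ c p = c q := by
  by_contra hcon
  push Not at hcon
  have hWne : Nonempty W := by
    rw [← Cardinal.mk_ne_zero_iff]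
    exact (lt_of_le_of_lt zero_le hA).ne'
  obtain ⟨w0⟩ := hWne
  -- the empty node supplies an element of `A`
  let w1 : W := (wellFounded_lt (α := W)).min Set.univ ⟨w0, trivial⟩
  have hw1 : ∀ β : W, w1 ≤ β := fun β =>
    not_lt.mp ((wellFounded_lt (α := W)).not_lt_min Set.univ (Set.mem_univ β))
  let p0 : Node W A := ⟨w1, fun _ => none, fun β => ⟨fun _ => hw1 β, fun _ => rfl⟩,
    fun β γ h => absurd rfl h⟩
  let d : A := c p0
  have hinj : ∀ α : W, ∀ β < α, ∀ γ < α, seq c d β = seq c d γ → β = γ := by
    intro α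
    induction α using WellFoundedLT.induction with
    | ind α ih =>
      -- the node of level `β < α`
      have hnode : ∀ β : W, β < α → ∃ p : Node W A, p.dom = β ∧
          ∀ γ : W, γ < β → p.f γ = some (seq c d γ) := by
        classical
        intro β hβ
        refine ⟨⟨β, fun γ => if γ < β then some (seq c d γ) else none, ?_, ?_⟩, rfl, ?_⟩
        · intro γ
          by_cases h : γ < β
          · simp [h]
          · simp [h, not_lt.mp h]
        · intro γ δ h1 h2
          by_cases hγ : γ < β
          · by_cases hδ : δ < β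
            · simp only [hγ, hδ, if_true, Option.some.injEq] at h2
              exact ih β hβ γ hγ δ hδ h2
            · simp [hγ, hδ] at h2
          · simp [hγ] at h1
        · intro γ hγ
          simp [hγ]
      have main : ∀ β < α, ∀ γ < α, β < γ → seq c d β ≠ seq c d γ := by
        intro β hβ γ hγ hβγ h
        obtain ⟨p, hp, hpf⟩ := hnode β hβ
        obtain ⟨q, hq, hqf⟩ := hnode γ hγ
        rw [seq_eq c d β p hp hpf, seq_eq c d γ q hq hqf] at h
        refine hcon p q ?_ ?_ h
        · rintro rfl
          rw [hp] at hq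
          exact hβγ.ne hq
        · intro δ hδ
          rw [hp] at hδ
          rw [hpf δ hδ, hqf δ (hδ.trans hβγ)]
      intro β hβ γ hγ h
      rcases lt_trichotomy β γ with h1 | h1 | h1
      · exact absurd h (main β hβ γ hγ h1)
      · exact h1
      · exact absurd h.symm (main γ hγ β hβ h1)
  have hinj' : Function.Injective (seq c d) := by
    have hnode : ∀ β : W, ∃ p : Node W A, p.dom = β ∧
          ∀ γ : W, γ < β → p.f γ = some (seq c d γ) := by
      classical
      intro β
      refine ⟨⟨β, fun γ => if γ < β then some (seq c d γ) else none, ?_, ?_⟩, rfl, ?_⟩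
      · intro γ
        by_cases h : γ < β
        · simp [h]
        · simp [h, not_lt.mp h]
      · intro γ δ h1 h2
        by_cases hγ : γ < β
        · by_cases hδ : δ < β
          · simp only [hγ, hδ, if_true, Option.some.injEq] at h2
            exact hinj β γ hγ δ hδ h2
          · simp [hγ, hδ] at h2
        · simp [hγ] at h1
      · intro γ hγ
        simp [hγ]
    have main : ∀ β γ : W, β < γ → seq c d β ≠ seq c d γ := by
      intro β γ hβγ h
      obtain ⟨p, hp, hpf⟩ := hnode β
      obtain ⟨q, hq, hqf⟩ := hnode γ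
      rw [seq_eq c d β p hp hpf, seq_eq c d γ q hq hqf] at h
      refine hcon p q ?_ ?_ h
      · rintro rfl
        rw [hp] at hq
        exact hβγ.ne hq
      · intro δ hδ
        rw [hp] at hδ
        rw [hpf δ hδ, hqf δ (hδ.trans hβγ)]
    intro β γ h
    rcases lt_trichotomy β γ with h1 | h1 | h1
    · exact absurd h (main β γ h1)
    · exact h1
    · exact absurd h.symm (main γ β h1)
  exact absurd hA (not_lt.mpr (Cardinal.mk_le_of_injective hinj'))

end Node

/-- **Main theorem** (negative answer, for every infinite cardinal, in ZFC).  For every infinite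
cardinal `a` there is a graph of chromatic number exactly `a⁺` which contains no subdivision of
the complete graph on `a⁺` vertices. -/
theorem result (a : Cardinal.{u}) (ha : ℵ₀ ≤ a) :
    ∃ (V : Type u) (G : SimpleGraph V), chi G = Order.succ a ∧
      ¬ ContainsSubdivision G (Order.succ a) := by
  let W : Type u := (Order.succ a).ord.ToType
  let A : Type u := a.out
  have hWc : #W = Order.succ a := by simp [W]
  have hAc : #A = a := by simp [A]
  have hIio : ∀ β : W, #(Set.Iio β) ≤ a := by
    intro β
    have : #(Set.Iio β) < #W := Cardinal.mk_Iio_lt β (by simp [W])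
    rw [hWc] at this
    exact Order.lt_succ_iff.mp this
  have hIic : ∀ β : W, #(Set.Iic β) < Order.succ a := by
    intro β
    rw [Order.lt_succ_iff]
    have h1 : (Set.Iic β : Set W) = Set.Iio β ∪ {β} := by
      ext γ; simp [le_iff_lt_or_eq, or_comm]
    rw [h1]
    refine (Cardinal.mk_union_le _ _).trans (Cardinal.add_le_of_le ha (hIio β) ?_)
    rw [Cardinal.mk_singleton]
    exact one_le_aleph0.trans ha
  refine ⟨Node W A, cmpGraph (Node W A), ?_, ?_⟩
  · apply le_antisymm
    · -- levels are independent
      refine csInf_le' ⟨W, fun β => {p | p.dom = β}, hWc, ?_, ?_⟩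
      · rintro β p hp q hq ⟨hne, hle⟩
        change p.dom = β at hp
        change q.dom = β at hq
        rcases hle with h | h
        · exact hne (Node.eq_of_dom h (hp.trans hq.symm))
        · exact hne (Node.eq_of_dom h (hq.trans hp.symm)).symm
      · ext p; simp
    · refine le_csInf ⟨#W, W, fun β => {p | p.dom = β}, rfl, ?_, by ext p; simp⟩ ?_
      · rintro β p hp q hq ⟨hne, hle⟩
        change p.dom = β at hp
        change q.dom = β at hq
        rcases hle with h | h
        · exact hne (Node.eq_of_dom h (hp.trans hq.symm))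
        · exact hne (Node.eq_of_dom h (hq.trans hp.symm)).symm
      · rintro κ ⟨ι, S, hι, hS, hcov⟩
        by_contra hlt
        rw [not_le, Order.lt_succ_iff, ← hι, ← hAc] at hlt
        obtain ⟨e⟩ := hlt
        have hmem : ∀ p : Node W A, ∃ i, p ∈ S i := by
          intro p
          have : p ∈ ⋃ i, S i := by rw [hcov]; trivial
          simpa using this
        choose i hi using hmem
        obtain ⟨p, q, hne, hle, hc⟩ := Node.no_coloring (W := W) (A := A)
          (by rw [hWc, hAc]; exact Order.lt_succ a) (fun p => e (i p))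
        have hii : i p = i q := e.injective hc
        exact hS (i p) p (hi p) q (hii ▸ hi q) ⟨hne, Or.inl hle⟩
  · refine no_subdivision a ha Node.tree (Node.pred_le a hIio) ?_
    intro C hC
    exact Node.no_chain (Order.succ a) hIic hWc (by rw [hAc]; exact Order.lt_succ a) C hC

end Pool.Agent.Results.MP_e76a7e_co.NoSubdivision
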